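import Pool.Agent.Helper45.U4.St2

/-!
# Project U4, module ORT: orthogonality of codes
-/

set_option autoImplicit false

open Module Classical
open scoped LinearAlgebra.Projectivization

namespace Pool.Agent.Helper41.U4

open Pool.Agent.Helper45.U4 Pool.Agent.Helper53.PB

/-- exchange of the indices `0` and `1` -/
def sg (i : ℕ) : ℕ := if i = 0 then 1 else if i = 1 then 0 else i

theorem par_bits : ∀ x : ℕ, x < 64 → par x = ((if x.testBit 0 then 1 else 0) +
    (if x.testBit 1 then 1 else 0) + (if x.testBit 2 then 1 else 0) + (if x.testBit 3 then 1 else 0) +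
    (if x.testBit 4 then 1 else 0) + (if x.testBit 5 then 1 else 0)) % 2 := by
  decide +kernel

theorem swp_bits : ∀ x : ℕ, x < 64 → ∀ i : ℕ, i < 6 → (swp x).testBit i = x.testBit (sg i) := by
  decide +kernel

theorem swp_lt : ∀ x : ℕ, x < 64 → swp x < 64 := by
  decide +kernel

theorem par_le (x : ℕ) : par x = 0 ∨ par x = 1 := by
  unfold par
  omega

section
variable {F : Type} [Field F]

/-- a bit as an element of the field -/
def bt (F : Type) [Field F] (x i : ℕ) : F := if x.testBit i then 1 else 0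

theorem bt_sq (x i : ℕ) : bt F x i ^ 2 = bt F x i := by
  unfold bt
  split_ifs <;> simp

theorem bt_xor (h2 : ∀ c : F, c + c = 0) (x y i : ℕ) : bt F (x ^^^ y) i = bt F x i + bt F y i := by
  unfold bt
  rw [Nat.testBit_xor]
  cases x.testBit i <;> cases y.testBit i <;> simp [h2]

theorem bt_and (x y i : ℕ) : bt F (x &&& y) i = bt F x i * bt F y i := by
  unfold bt
  rw [Nat.testBit_and]
  cases x.testBit i <;> cases y.testBit i <;> simp

theorem cast_mod (h2 : ∀ c : F, c + c = 0) (s : ℕ) : ((s % 2 : ℕ) : F) = (s : F) := by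
  have h := Nat.div_add_mod s 2
  have h3 : (s : F) = ((2 * (s / 2) + s % 2 : ℕ) : F) := by rw [h]
  rw [h3]
  push_cast
  have h4 := h2 ((s / 2 : ℕ) : F)
  linear_combination -h4

theorem par_sum (h2 : ∀ c : F, c + c = 0) (x : ℕ) (hx : x < 64) :
    (par x : F) = ∑ i : Fin 6, bt F x i := by
  rw [par_bits x hx, cast_mod h2, Fin.sum_univ_six]
  unfold bt
  push_cast
  rfl

/-- the coordinates of a code -/
theorem coord (ω : F) (m : ℕ) (i : Fin 6) :
    (if m.testBit i then (1 : F) else 0) + (if m.testBit (i + 6) then ω else 0) =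
      bt F (m % 64) i + bt F (m / 64) i * ω := by
  have h1 : (m % 64).testBit i = m.testBit i := by
    have h := Nat.testBit_mod_two_pow m 6 i
    rw [show (2 : ℕ) ^ 6 = 64 from rfl] at h
    rw [h]
    have h3 : (i : ℕ) < 6 := i.isLt
    simp [h3]
  have h2 : (m / 64).testBit i = m.testBit (i + 6) := by
    rw [show (64 : ℕ) = 2 ^ 6 from rfl, Nat.testBit_div_two_pow]
  unfold bt
  rw [h1, h2]
  split_ifs <;> simp

theorem gm_sg (i j : Fin 6) : gm F i j = if (j : ℕ) = sg i then 1 else 0 := by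
  have h : ∀ i j : Fin 6, ((i = 0 ∧ j = 1) ∨ (i = 1 ∧ j = 0) ∨ (i = j ∧ 2 ≤ i)) ↔ (j : ℕ) = sg i := by
    decide
  unfold gm
  by_cases h2 : (j : ℕ) = sg i
  · rw [if_pos h2, if_pos ((h i j).mpr h2)]
  · rw [if_neg h2, if_neg fun h3 => h2 ((h i j).mp h3)]

end

theorem hORT (h1 : StHF) (h2 : StVEC) : StORT := by
  intro F V _ _ _ φ ω b hk hc hω hb m n hm hn
  obtain ⟨-, hc3, hadd, hsm, -, -, -, -⟩ := h1 φ hk hc
  have two := hω.two
  have hwsq := hω.sq
  have ha : m % 64 < 64 := Nat.mod_lt _ (by norm_num)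
  have hb' : m / 64 < 64 := by omega
  have hn0 : n % 64 < 64 := Nat.mod_lt _ (by norm_num)
  have hn1 : n / 64 < 64 := by omega
  have hx : (n % 64) ^^^ (n / 64) < 64 := Nat.xor_lt_two_pow (n := 6) hn0 hn1
  have hc' : swp ((n % 64) ^^^ (n / 64)) < 64 := swp_lt _ hx
  have hd : swp (n / 64) < 64 := swp_lt _ hn1
  -- the form in coordinates
  have hz : ∀ z, φ.f 0 z = 0 := by
    intro z
    have h := hsm 0 0 z
    rw [zero_smul] at h
    rw [h]
    ring
  have hs1 : ∀ (s : Finset (Fin 6)) (M : Fin 6 → F) (z : V),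
      φ.f (∑ i ∈ s, M i • b i) z = ∑ i ∈ s, M i ^ 2 * φ.f (b i) z := by
    intro s M z
    induction s using Finset.induction_on with
    | empty => rw [Finset.sum_empty, Finset.sum_empty, hz]
    | insert i s hi ih => rw [Finset.sum_insert hi, Finset.sum_insert hi, hadd, hsm, ih]
  have hs2 : ∀ (i : Fin 6) (N : ℕ → F), φ.f (b i) (∑ j : Fin 6, N j • b j) = N (sg i) := by
    intro i N
    rw [map_sum]
    have h3 : ∀ j : Fin 6, φ.f (b i) (N j • b j) = if (j : ℕ) = sg i then N j else 0 := by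
      intro j
      rw [map_smul, hb.gram, gm_sg, smul_eq_mul]
      split_ifs <;> simp
    rw [Finset.sum_congr rfl fun j _ => h3 j]
    have h4 : sg i < 6 := by
      have h5 : ∀ i : Fin 6, sg i < 6 := by decide
      exact h5 i
    rw [Finset.sum_eq_single (⟨sg i, h4⟩ : Fin 6)]
    · rw [if_pos rfl]
    · intro j _ hj
      rw [if_neg]
      intro h5
      exact hj (Fin.ext h5)
    · intro h5
      exact absurd (Finset.mem_univ _) h5
  -- coordinates
  let M : ℕ → F := fun i => bt F (m % 64) i + bt F (m / 64) i * ω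
  let N : ℕ → F := fun i => bt F (n % 64) i + bt F (n / 64) i * ω
  have hM : vv ω b m = ∑ i : Fin 6, M i • b i := by
    unfold vv
    exact Finset.sum_congr rfl fun i _ => by rw [coord]
  have hN : vv ω b n = ∑ i : Fin 6, N i • b i := by
    unfold vv
    exact Finset.sum_congr rfl fun i _ => by rw [coord]
  have hf : φ.f (vv ω b m) (vv ω b n) = ∑ i : Fin 6, M i ^ 2 * N (sg i) := by
    rw [hM, hs1 Finset.univ (fun i => M i), hN]
    exact Finset.sum_congr rfl fun i _ => by rw [hs2 i N]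
  -- the two parities
  have hA : ((m % 64) &&& swp ((n % 64) ^^^ (n / 64))) ^^^ ((m / 64) &&& swp (n / 64)) < 64 :=
    Nat.xor_lt_two_pow (n := 6) (Nat.and_lt_two_pow _ hc') (Nat.and_lt_two_pow _ hd)
  have hB : ((m % 64) &&& swp (n / 64)) ^^^ ((m / 64) &&& swp ((n % 64) ^^^ (n / 64))) ^^^
      ((m / 64) &&& swp (n / 64)) < 64 :=
    Nat.xor_lt_two_pow (n := 6) (Nat.xor_lt_two_pow (n := 6) (Nat.and_lt_two_pow _ hd)
      (Nat.and_lt_two_pow _ hc')) (Nat.and_lt_two_pow _ hd)
  have hsw1 : ∀ i : Fin 6, bt F (swp ((n % 64) ^^^ (n / 64))) i =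
      bt F (n % 64) (sg i) + bt F (n / 64) (sg i) := by
    intro i
    rw [← bt_xor two]
    unfold bt
    rw [swp_bits _ hx i i.isLt]
  have hsw2 : ∀ i : Fin 6, bt F (swp (n / 64)) i = bt F (n / 64) (sg i) := by
    intro i
    unfold bt
    rw [swp_bits _ hn1 i i.isLt]
  have hαβ : (par (((m % 64) &&& swp ((n % 64) ^^^ (n / 64))) ^^^ ((m / 64) &&& swp (n / 64))) : F) +
      (par (((m % 64) &&& swp (n / 64)) ^^^ ((m / 64) &&& swp ((n % 64) ^^^ (n / 64))) ^^^
        ((m / 64) &&& swp (n / 64))) : F) * ω = ∑ i : Fin 6, M i * N (sg i) ^ 2 := by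
    rw [par_sum two _ hA, par_sum two _ hB, Finset.sum_mul, ← Finset.sum_add_distrib]
    refine Finset.sum_congr rfl fun i _ => ?_
    rw [bt_xor two, bt_xor two, bt_xor two, bt_and, bt_and, bt_and, bt_and, hsw1, hsw2]
    change _ = (bt F (m % 64) i + bt F (m / 64) i * ω) *
      (bt F (n % 64) (sg i) + bt F (n / 64) (sg i) * ω) ^ 2
    have e1 := bt_sq (F := F) (n % 64) (sg i)
    have e2 := bt_sq (F := F) (n / 64) (sg i)
    generalize bt F (m % 64) i = a0 at *
    generalize bt F (m / 64) i = a1 at *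
    generalize bt F (n % 64) (sg i) = c0 at *
    generalize bt F (n / 64) (sg i) = c1 at *
    have e3 : (c0 + c1 * ω) ^ 2 = c0 + c1 + c1 * ω := by
      have e4 := two (c0 * c1 * ω)
      linear_combination e1 + ω ^ 2 * e2 + c1 * hwsq + e4
    rw [e3]
    have e5 := two (a1 * c1 * ω)
    linear_combination (-a1 * c1) * hwsq
  have hsq : ∀ s : Finset (Fin 6), (∑ i ∈ s, M i * N (sg i) ^ 2) ^ 2 =
      ∑ i ∈ s, M i ^ 2 * N (sg i) := by
    intro s
    have h4 : ∀ c : F, c ^ 4 = c := by
      intro c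
      by_cases h5 : c = 0
      · rw [h5]
        ring
      · have h6 := hc3 c h5
        linear_combination c * h6
    induction s using Finset.induction_on with
    | empty => rw [Finset.sum_empty, Finset.sum_empty]; ring
    | insert i s hi ih =>
      rw [Finset.sum_insert hi, Finset.sum_insert hi]
      have h5 := two ((M i * N (sg i) ^ 2) * ∑ i ∈ s, M i * N (sg i) ^ 2)
      have h6 := h4 (N (sg i))
      linear_combination ih + h5 + M i ^ 2 * h6
  have hkey : φ.f (vv ω b m) (vv ω b n) =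
      ((par (((m % 64) &&& swp ((n % 64) ^^^ (n / 64))) ^^^ ((m / 64) &&& swp (n / 64))) : F) +
      (par (((m % 64) &&& swp (n / 64)) ^^^ ((m / 64) &&& swp ((n % 64) ^^^ (n / 64))) ^^^
        ((m / 64) &&& swp (n / 64))) : F) * ω) ^ 2 := by
    rw [hαβ, hsq, hf]
  rw [hkey, sq_eq_zero_iff]
  unfold orth
  simp only [Bool.and_eq_true, beq_iff_eq]
  rcases par_le (((m % 64) &&& swp ((n % 64) ^^^ (n / 64))) ^^^ ((m / 64) &&& swp (n / 64))) with
    p1 | p1 <;>
  rcases par_le (((m % 64) &&& swp (n / 64)) ^^^ ((m / 64) &&& swp ((n % 64) ^^^ (n / 64))) ^^^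
        ((m / 64) &&& swp (n / 64))) with p2 | p2 <;> rw [p1, p2]
  · simp
  · simp [hω.ne]
  · simp
  · have h7 : (1 : F) + ω ≠ 0 := by
      intro h8
      apply hω.ne1
      have h9 := two (1 : F)
      linear_combination h8 - h9
    simp [h7]

end Pool.Agent.Helper41.U4
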